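import Mathlib

/-! Counting sign patterns of linear functionals. -/

namespace V11121.Nest

open Finset

theorem shatter_le {ι D : Type} [Fintype ι] [DecidableEq ι] [Fintype D]
    (F : ι → (D → ℝ) →ₗ[ℝ] ℝ) (P : Finset (Finset ι))
    (hP : ∀ u ∈ P, ∃ θ : D → ℝ, ∀ i, i ∈ u ↔ 0 ≤ F i θ) (s : Finset ι) (hs : P.Shatters s) :
    s.card ≤ Fintype.card D := by
  by_contra hc
  push Not at hc
  have hnl : ¬ LinearIndependent ℝ (fun i : s => (F i : Module.Dual ℝ (D → ℝ))) := by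
    intro h
    have h1 := h.fintype_card_le_finrank
    rw [Subspace.dual_finrank_eq, Module.finrank_fintype_fun_eq_card, Fintype.card_coe] at h1
    omega
  rw [Fintype.not_linearIndependent_iff] at hnl
  obtain ⟨a₀, ha₀, i₀, hi₀⟩ := hnl
  obtain ⟨a, ha, i₁, hi₁⟩ : ∃ a : s → ℝ, ∑ i : s, a i • (F i : Module.Dual ℝ (D → ℝ)) = 0 ∧
      ∃ i, a i < 0 := by
    rcases lt_or_gt_of_ne hi₀ with h | h
    · exact ⟨a₀, ha₀, i₀, h⟩
    · refine ⟨fun i => - a₀ i, ?_, i₀, by simpa using h⟩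
      have h2 : -∑ i : s, a₀ i • (F i : Module.Dual ℝ (D → ℝ)) = 0 := by rw [ha₀, neg_zero]
      rw [← Finset.sum_neg_distrib] at h2
      refine Eq.trans (Finset.sum_congr rfl fun i _ => ?_) h2
      exact neg_smul (a₀ i) (F i : Module.Dual ℝ (D → ℝ))
  classical
  let t : Finset ι := s.filter (fun i => ∀ h : i ∈ s, 0 ≤ a ⟨i, h⟩)
  have hts : t ⊆ s := Finset.filter_subset _ _
  obtain ⟨u, huP, hu⟩ := hs hts
  obtain ⟨θ, hθ⟩ := hP u huP
  have hmem : ∀ i : s, (0 ≤ a i ↔ 0 ≤ F i θ) := by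
    intro i
    have h1 : (i : ι) ∈ t ↔ 0 ≤ a i := by
      simp only [t, Finset.mem_filter]
      constructor
      · rintro ⟨_, h⟩
        exact h i.2
      · intro h
        exact ⟨i.2, fun _ => h⟩
    rw [← h1, ← hu, Finset.mem_inter, ← hθ]
    simp [i.2]
  have hsum : ∑ i : s, a i * F i θ = 0 := by
    have := congrArg (fun L : Module.Dual ℝ (D → ℝ) => L θ) ha
    simpa [LinearMap.sum_apply] using this
  have hpos : 0 < ∑ i : s, a i * F i θ := by
    refine Finset.sum_pos' ?_ ⟨i₁, Finset.mem_univ _, ?_⟩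
    · intro i _
      by_cases h : 0 ≤ a i
      · exact mul_nonneg h ((hmem i).1 h)
      · have h2 : ¬ 0 ≤ F i θ := fun h' => h ((hmem i).2 h')
        exact (mul_pos_of_neg_of_neg (not_le.1 h) (not_le.1 h2)).le
    · have h : ¬ 0 ≤ a i₁ := not_le.2 hi₁
      have h2 : ¬ 0 ≤ F i₁ θ := fun h' => h ((hmem i₁).2 h')
      exact mul_pos_of_neg_of_neg (not_le.1 h) (not_le.1 h2)
  linarith

theorem sum_choose_le (N D : ℕ) : ∑ k ∈ Finset.Iic D, N.choose k ≤ (N + 1) ^ D := by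
  rw [add_pow]
  have : Finset.Iic D = Finset.range (D + 1) := by ext k; simp
  rw [this]
  refine Finset.sum_le_sum fun k hk => ?_
  have hk' : k ≤ D := by
    have := Finset.mem_range.1 hk
    omega
  calc N.choose k ≤ N ^ k := Nat.choose_le_pow N k
    _ = N ^ k * 1 ^ (D - k) * 1 := by simp
    _ ≤ N ^ k * 1 ^ (D - k) * D.choose k := Nat.mul_le_mul_left _ (Nat.choose_pos hk')

theorem card_patterns {ι D : Type} [Fintype ι] [DecidableEq ι] [Fintype D]
    (F : ι → (D → ℝ) →ₗ[ℝ] ℝ) :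
    ∃ P : Finset (Finset ι), P.card ≤ (Fintype.card ι + 1) ^ (Fintype.card D) ∧
      ∀ θ : D → ℝ, ∃ u ∈ P, ∀ i, i ∈ u ↔ 0 ≤ F i θ := by
  classical
  let P : Finset (Finset ι) := Finset.univ.filter (fun u => ∃ θ : D → ℝ, ∀ i, i ∈ u ↔ 0 ≤ F i θ)
  refine ⟨P, ?_, ?_⟩
  · have hP : ∀ u ∈ P, ∃ θ : D → ℝ, ∀ i, i ∈ u ↔ 0 ≤ F i θ := fun u hu =>
      (Finset.mem_filter.1 hu).2
    have hvc : P.vcDim ≤ Fintype.card D := by
      unfold Finset.vcDim
      refine Finset.sup_le fun s hs => ?_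
      exact shatter_le F P hP s (Finset.mem_shatterer.1 hs)
    calc P.card ≤ P.shatterer.card := Finset.card_le_card_shatterer P
      _ ≤ ∑ k ∈ Finset.Iic P.vcDim, (Fintype.card ι).choose k :=
          Finset.card_shatterer_le_sum_vcDim
      _ ≤ ∑ k ∈ Finset.Iic (Fintype.card D), (Fintype.card ι).choose k := by
          refine Finset.sum_le_sum_of_subset ?_
          exact Finset.Iic_subset_Iic.2 hvc
      _ ≤ _ := sum_choose_le _ _
  · intro θ
    refine ⟨Finset.univ.filter (fun i => 0 ≤ F i θ), ?_, ?_⟩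
    · simp only [P, Finset.mem_filter, Finset.mem_univ, true_and]
      exact ⟨θ, fun i => Iff.rfl⟩
    · intro i
      simp

end V11121.Nest
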