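import Mathlib

/-!
# NeST graphs, chordal and strongly chordal graphs
-/

namespace V11121.Nest

/-- An embedded tree, up to isometry: a finite tree `T` whose edges `e` have lengths `len e > 0`,
with the distance `d x y` between vertices (the total length of the path from `x` to `y`).
Vertices of degree two are allowed, so that any finite set of points of an embedded tree can be
taken to consist of vertices (subdivide its edges). -/
def IsTreeMetric {m : ℕ} (T : SimpleGraph (Fin m)) (len : Sym2 (Fin m) → ℝ)
    (d : Fin m → Fin m → ℝ) : Prop :=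
  T.IsTree ∧ (∀ e ∈ T.edgeSet, 0 < len e) ∧
    ∀ x y (p : T.Walk x y), p.IsPath → d x y = (p.edges.map len).sum

/-- The size of the intersection of the neighborhood subtrees `T(c,r)` and `T(c',r')` that meet,
where `δ` is the distance of `c` and `c'`: the intersection is the neighborhood subtree of radius
half of this number (the smaller of the two if one contains the other by the triangle inequality,
and otherwise centred at the point of the path from `c` to `c'` at distance `(r - r' + δ)/2` from
`c`). -/
noncomputable def interSize (r r' δ : ℝ) : ℝ := min (min (2 * r) (2 * r')) (r + r' - δ)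

/-- A NeST representation of `G`: neighborhood subtrees `T(c v, r v)` of an embedded tree and
tolerances `t v > 0` such that distinct `x`, `y` are adjacent iff `T(c x, r x)` and `T(c y, r y)`
meet and the size of their intersection is at least `min (t x) (t y)`. -/
def IsNeSTRep {V : Type} (G : SimpleGraph V) {m : ℕ} (T : SimpleGraph (Fin m))
    (len : Sym2 (Fin m) → ℝ) (d : Fin m → Fin m → ℝ) (c : V → Fin m) (r t : V → ℝ) : Prop :=
  IsTreeMetric T len d ∧ (∀ v, 0 < r v) ∧ (∀ v, 0 < t v) ∧
    ∀ x y, x ≠ y → (G.Adj x y ↔ d (c x) (c y) ≤ r x + r y ∧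
      min (t x) (t y) ≤ interSize (r x) (r y) (d (c x) (c y)))

/-- NeST graphs. -/
def IsNeST {V : Type} (G : SimpleGraph V) : Prop :=
  ∃ (m : ℕ) (T : SimpleGraph (Fin m)) (len : Sym2 (Fin m) → ℝ) (d : Fin m → Fin m → ℝ)
    (c : V → Fin m) (r t : V → ℝ), IsNeSTRep G T len d c r t

/-- Bounded NeST graphs: the tolerances satisfy `t v ≤ 2 * r v`. -/
def IsBoundedNeST {V : Type} (G : SimpleGraph V) : Prop :=
  ∃ (m : ℕ) (T : SimpleGraph (Fin m)) (len : Sym2 (Fin m) → ℝ) (d : Fin m → Fin m → ℝ)
    (c : V → Fin m) (r t : V → ℝ), IsNeSTRep G T len d c r t ∧ ∀ v, t v ≤ 2 * r v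

/-- Chordal graphs: no induced cycle of length `k ≥ 4`. -/
def IsChordal {V : Type} (G : SimpleGraph V) : Prop :=
  ∀ k : ℕ, 4 ≤ k → ¬ ∃ f : ZMod k → V, Function.Injective f ∧
    ∀ i j, G.Adj (f i) (f j) ↔ j = i + 1 ∨ i = j + 1

/-- An induced `k`-sun: a clique `u`, an independent set `w` (`2k` distinct vertices), with `w i`
adjacent to exactly `u i` and `u (i+1)` (indices modulo `k`). -/
def HasSun {V : Type} (G : SimpleGraph V) (k : ℕ) : Prop :=
  ∃ u w : ZMod k → V, Function.Injective u ∧ Function.Injective w ∧ (∀ i j, u i ≠ w j) ∧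
    (∀ i j, i ≠ j → G.Adj (u i) (u j)) ∧ (∀ i j, ¬ G.Adj (w i) (w j)) ∧
    ∀ i j, G.Adj (w i) (u j) ↔ j = i ∨ j = i + 1

/-- Strongly chordal graphs: chordal, and no `k`-sun for `k ≥ 3`. -/
def IsStronglyChordal {V : Type} (G : SimpleGraph V) : Prop :=
  IsChordal G ∧ ∀ k : ℕ, 3 ≤ k → ¬ HasSun G k

end V11121.Nest
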