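import Mathlib

/-! Many 0/1 matrices without the pattern `[[1,1],[1,0]]`. -/

namespace V11121.Nest

open Nat

/-- No `Γ`: if `(i,j)`, `(i,j')`, `(i',j)` are ones with `i < i'`, `j < j'`, so is `(i',j')`. -/
def GF {N : ℕ} (M : Fin N → Fin N → Bool) : Prop :=
  ∀ i i' j j', i < i' → j < j' → M i j = true → M i j' = true → M i' j = true → M i' j' = true

/-- The number of such matrices. -/
noncomputable def cnt (N : ℕ) : ℕ := Nat.card {M : Fin N → Fin N → Bool // GF M}

/-- The block matrix `[[π, A], [D, 1]]`. -/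
def blk {N : ℕ} (π : Equiv.Perm (Fin N)) (A D : Fin N → Fin N → Bool) :
    Fin (N + N) → Fin (N + N) → Bool := fun i j =>
  Fin.addCases (fun i => Fin.addCases (fun j => decide (π i = j)) (fun j => A i j) j)
    (fun i => Fin.addCases (fun j => D i j) (fun _ => true) j) i

theorem blk_GF {N : ℕ} (π : Equiv.Perm (Fin N)) (A D : Fin N → Fin N → Bool)
    (hA : GF A) (hD : GF D) : GF (blk π A D) := by
  intro i i' j j'
  refine Fin.addCases (fun i => ?_) (fun i => ?_) i <;>
    refine Fin.addCases (fun i' => ?_) (fun i' => ?_) i' <;>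
    refine Fin.addCases (fun j => ?_) (fun j => ?_) j <;>
    refine Fin.addCases (fun j' => ?_) (fun j' => ?_) j' <;>
    intro hi hj <;>
    simp only [blk, Fin.addCases_left, Fin.addCases_right, decide_eq_true_eq, imp_self,
      implies_true] <;>
    simp only [Fin.lt_def, Fin.val_castAdd, Fin.val_natAdd] at hi hj
  · intro h1 h2 h3
    exact absurd (h1.symm.trans h2) (by intro h; subst h; omega)
  · intro h1 h2 h3
    exact absurd (π.injective (h1.trans h3.symm)) (by intro h; subst h; omega)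
  · intro h1 h2 h3
    exfalso
    have := j.2
    have := j'.2
    omega
  · intro h1 h2 h3
    exact hA i i' j j' hi (by rw [Fin.lt_def]; omega) h1 h2 h3
  · intro h1 h2 h3
    exact absurd (h1.symm.trans h2) (by intro h; subst h; omega)
  · intro h1 h2 h3
    exfalso
    have := j.2
    have := j'.2
    omega
  · intro h1 h2 h3
    exfalso
    have := i.2
    have := i'.2
    omega
  · intro h1 h2 h3
    exfalso
    have := i.2
    have := i'.2
    omega
  · intro h1 h2 h3
    exfalso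
    have := i.2
    have := i'.2
    omega
  · intro h1 h2 h3
    exfalso
    have := i.2
    have := i'.2
    omega
  · intro h1 h2 h3
    exact hD i i' j j' (by rw [Fin.lt_def]; omega) hj h1 h2 h3
  · intro h1 h2 h3
    exfalso
    have := j.2
    have := j'.2
    omega

theorem cnt_step (N : ℕ) : N ! * (cnt N * cnt N) ≤ cnt (N + N) := by
  unfold cnt
  have h1 : Nat.card (Equiv.Perm (Fin N)) = N ! := by
    rw [Nat.card_eq_fintype_card, Fintype.card_perm, Fintype.card_fin]
  rw [← h1, ← Nat.card_prod, ← Nat.card_prod]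
  refine Nat.card_le_card_of_injective
    (fun p : Equiv.Perm (Fin N) × ({M : Fin N → Fin N → Bool // GF M} ×
      {M : Fin N → Fin N → Bool // GF M}) =>
      (⟨blk p.1 p.2.1.1 p.2.2.1, blk_GF _ _ _ p.2.1.2 p.2.2.2⟩ :
        {M : Fin (N + N) → Fin (N + N) → Bool // GF M})) ?_
  rintro ⟨π, ⟨A, hA⟩, ⟨D, hD⟩⟩ ⟨π', ⟨A', hA'⟩, ⟨D', hD'⟩⟩ h
  simp only [Subtype.mk.injEq] at h
  have hπ : π = π' := by
    ext i
    have := congrFun (congrFun h (Fin.castAdd N i)) (Fin.castAdd N (π i))
    simp only [blk, Fin.addCases_left] at this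
    have h2 : decide (π' i = π i) = true := by rw [← this]; simp
    rw [decide_eq_true_eq] at h2
    rw [h2]
  have hA : A = A' := by
    funext i j
    have := congrFun (congrFun h (Fin.castAdd N i)) (Fin.natAdd N j)
    simpa only [blk, Fin.addCases_left, Fin.addCases_right] using this
  have hD : D = D' := by
    funext i j
    have := congrFun (congrFun h (Fin.natAdd N i)) (Fin.castAdd N j)
    simpa only [blk, Fin.addCases_left, Fin.addCases_right] using this
  subst hπ hA hD
  rfl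

theorem cnt_pos (N : ℕ) : 1 ≤ cnt N := by
  unfold cnt
  have : Nonempty {M : Fin N → Fin N → Bool // GF M} :=
    ⟨⟨fun _ _ => true, fun _ _ _ _ _ _ _ _ _ => rfl⟩⟩
  exact Nat.card_pos

theorem fact_lower (m : ℕ) : m ^ m ≤ (m + m)! := by
  calc m ^ m ≤ (m + 1) ^ m := Nat.pow_le_pow_left (Nat.le_succ m) m
    _ = 1 * (m + 1) ^ m := (one_mul _).symm
    _ ≤ m ! * (m + 1) ^ m := Nat.mul_le_mul_right _ (Nat.factorial_pos m)
    _ ≤ (m + m)! := Nat.factorial_mul_pow_le_factorial

theorem cnt_lower (l : ℕ) : 2 ^ (2 ^ l * ((l + 1) * (l + 2))) ≤ cnt (2 ^ (l + 3)) := by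
  induction l with
  | zero =>
    have h1 := cnt_step 4
    have h2 := cnt_pos 4
    have h3 : 4 ! = 24 := rfl
    have h4 : 1 ≤ cnt 4 * cnt 4 := Nat.mul_pos h2 h2
    have h5 : (2 : ℕ) ^ (0 + 3) = 4 + 4 := rfl
    rw [h5]
    have h6 : (2 : ℕ) ^ (2 ^ 0 * ((0 + 1) * (0 + 2))) = 4 := rfl
    rw [h6]
    nlinarith
  | succ l ih =>
    have h1 := cnt_step (2 ^ (l + 3))
    have h2 : (2 : ℕ) ^ (l + 1 + 3) = 2 ^ (l + 3) + 2 ^ (l + 3) := by ring
    rw [h2]
    refine le_trans ?_ h1
    have h3 : 2 ^ ((l + 2) * 2 ^ (l + 2)) ≤ (2 ^ (l + 3))! := by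
      have := fact_lower (2 ^ (l + 2))
      rw [← pow_mul] at this
      have h4 : (2 : ℕ) ^ (l + 3) = 2 ^ (l + 2) + 2 ^ (l + 2) := by ring
      rw [h4]
      exact this
    calc 2 ^ (2 ^ (l + 1) * ((l + 1 + 1) * (l + 1 + 2)))
        = 2 ^ ((l + 2) * 2 ^ (l + 2)) *
          (2 ^ (2 ^ l * ((l + 1) * (l + 2))) * 2 ^ (2 ^ l * ((l + 1) * (l + 2)))) := by
          rw [← pow_add, ← pow_add]
          congr 1
          ring
      _ ≤ _ := Nat.mul_le_mul h3 (Nat.mul_le_mul ih ih)

end V11121.Nest
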