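import Pool.Agent.V11121.Nest.Defs

/-! Balls in metric trees: the size of an intersection. -/

namespace V11121.Nest

open Metric

/-- Metric trees: any two points are joined by a geodesic (for every `s` between `0` and
`dist x y` some point is at distance `s` from `x` and `dist x y - s` from `y`) and the four-point
condition holds. -/
def IsMetricTree (X : Type) [MetricSpace X] : Prop :=
  (∀ (x y : X) (s : ℝ), 0 ≤ s → s ≤ dist x y → ∃ z, dist x z = s ∧ dist z y = dist x y - s) ∧
    ∀ x y z w : X, dist x y + dist z w ≤ max (dist x z + dist y w) (dist x w + dist y z)

variable {X : Type} [MetricSpace X]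

theorem exists_far (hX : IsMetricTree X) {c c' : X} {r : ℝ}
    (hd : diam (closedBall c r) = 2 * r) {ε : ℝ} (hε : 0 < ε) (hε' : ε < r) :
    ∃ u, dist u c ≤ r ∧ r + dist c c' - ε < dist u c' := by
  have hr : 0 < r := hε.trans hε'
  obtain ⟨p, hp, q, hq, hpq⟩ : ∃ p ∈ closedBall c r, ∃ q ∈ closedBall c r,
      2 * r - ε < dist p q := by
    by_contra hc
    push Not at hc
    have := diam_le_of_forall_dist_le (s := closedBall c r) (show 0 ≤ 2 * r - ε by linarith) hc
    linarith
  rw [mem_closedBall] at hp hq
  have h4 := hX.2 p q c c'
  rcases le_max_iff.1 h4 with h | h
  · exact ⟨q, hq, by linarith⟩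
  · exact ⟨p, hp, by linarith⟩

theorem diam_inter (hX : IsMetricTree X) {c c' : X} {r r' : ℝ} (hr : 0 < r) (hr' : 0 < r')
    (hd : diam (closedBall c r) = 2 * r) (hd' : diam (closedBall c' r') = 2 * r')
    (hD : dist c c' ≤ r + r') :
    diam (closedBall c r ∩ closedBall c' r') = interSize r r' (dist c c') := by
  unfold interSize
  have hbd : Bornology.IsBounded (closedBall c r ∩ closedBall c' r') :=
    isBounded_closedBall.subset Set.inter_subset_left
  have hD0 : 0 ≤ dist c c' := dist_nonneg
  apply le_antisymm
  · refine diam_le_of_forall_dist_le ?_ ?_
    · rw [le_min_iff, le_min_iff]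
      exact ⟨⟨by linarith, by linarith⟩, by linarith⟩
    · rintro p ⟨hp, hp'⟩ q ⟨hq, hq'⟩
      rw [mem_closedBall] at hp hp' hq hq'
      rw [le_min_iff, le_min_iff]
      refine ⟨⟨?_, ?_⟩, ?_⟩
      · have := dist_triangle_right p q c
        linarith
      · have := dist_triangle_right p q c'
        linarith
      · have h4 := hX.2 p q c c'
        rcases le_max_iff.1 h4 with h | h <;> linarith
  · by_cases h1 : dist c c' + r ≤ r'
    · have hsub : closedBall c r ∩ closedBall c' r' = closedBall c r := by
        refine Set.inter_eq_left.2 ?_
        exact closedBall_subset_closedBall' (by linarith)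
      rw [hsub, hd]
      exact (min_le_left _ _).trans (min_le_left _ _)
    · by_cases h2 : dist c c' + r' ≤ r
      · have hsub : closedBall c r ∩ closedBall c' r' = closedBall c' r' := by
          refine Set.inter_eq_right.2 ?_
          refine closedBall_subset_closedBall' ?_
          rw [dist_comm c' c]
          linarith
        rw [hsub, hd']
        exact (min_le_left _ _).trans (min_le_right _ _)
      · push Not at h1 h2
        refine (min_le_right _ _).trans ?_
        -- a small number
        obtain ⟨ε, hε0, hε1, hε2, hε3, hε4, hε5⟩ : ∃ ε : ℝ, 0 < ε ∧ ε < r ∧ ε < r' ∧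
            ε < dist c c' ∧ ε < r - r' + dist c c' ∧ ε < r' - r + dist c c' := by
          have hDpos : 0 < dist c c' := by linarith
          have h3 : 0 < r - r' + dist c c' := by linarith
          have h4 : 0 < r' - r + dist c c' := by linarith
          refine ⟨min (min r r') (min (dist c c') (min (r - r' + dist c c')
            (r' - r + dist c c'))) / 2, ?_, ?_, ?_, ?_, ?_, ?_⟩
          · have : 0 < min (min r r') (min (dist c c') (min (r - r' + dist c c')
              (r' - r + dist c c'))) := by
              simp only [lt_min_iff]
              exact ⟨⟨hr, hr'⟩, hDpos, h3, h4⟩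
            linarith
          all_goals
            have a1 : min (min r r') (min (dist c c') (min (r - r' + dist c c')
              (r' - r + dist c c'))) ≤ min r r' := min_le_left _ _
            have a2 : min (min r r') (min (dist c c') (min (r - r' + dist c c')
              (r' - r + dist c c'))) ≤ min (dist c c') (min (r - r' + dist c c')
              (r' - r + dist c c')) := min_le_right _ _
            have a3 : min (dist c c') (min (r - r' + dist c c')
              (r' - r + dist c c')) ≤ dist c c' := min_le_left _ _
            have a4 : min (dist c c') (min (r - r' + dist c c')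
              (r' - r + dist c c')) ≤ min (r - r' + dist c c')
              (r' - r + dist c c') := min_le_right _ _
            have a5 := min_le_left r r'
            have a6 := min_le_right r r'
            have a7 := min_le_left (r - r' + dist c c') (r' - r + dist c c')
            have a8 := min_le_right (r - r' + dist c c') (r' - r + dist c c')
            linarith
        obtain ⟨u, hu1, hu2⟩ := exists_far hX (c' := c') hd hε0 hε1
        obtain ⟨v, hv1, hv2⟩ := exists_far hX (c' := c) hd' hε0 hε2
        rw [dist_comm c' c] at hv2
        -- the point at distance `r'` from `c'` towards `u`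
        obtain ⟨p, hp1, hp2⟩ := hX.1 c' u r' hr'.le (by rw [dist_comm c' u]; linarith)
        obtain ⟨q, hq1, hq2⟩ := hX.1 c v r hr.le (by rw [dist_comm c v]; linarith)
        have ep : dist c p ≤ max (dist c c' - r') (r' - dist c c' + ε) := by
          have h4 := hX.2 c p c' u
          rw [le_max_iff]
          rcases le_max_iff.1 h4 with h | h
          · left; linarith
          · right
            rw [dist_comm p c'] at h
            rw [dist_comm c u] at h
            rw [dist_comm c' u] at h
            linarith
        have eq : dist c' q ≤ max (dist c c' - r) (r - dist c c' + ε) := by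
          have h4 := hX.2 c' q c v
          rw [le_max_iff]
          rw [dist_comm c' c] at h4
          rcases le_max_iff.1 h4 with h | h
          · left; linarith
          · right
            rw [dist_comm q c] at h
            rw [dist_comm c' v] at h
            rw [dist_comm c v] at h
            linarith
        have hpin : p ∈ closedBall c r ∩ closedBall c' r' := by
          constructor
          · rw [mem_closedBall, dist_comm]
            refine ep.trans (max_le ?_ ?_) <;> linarith
          · rw [mem_closedBall, dist_comm]
            linarith
        have hqin : q ∈ closedBall c r ∩ closedBall c' r' := by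
          constructor
          · rw [mem_closedBall, dist_comm]
            linarith
          · rw [mem_closedBall, dist_comm]
            refine eq.trans (max_le ?_ ?_) <;> linarith
        refine le_trans ?_ (dist_le_diam_of_mem hbd hpin hqin)
        have h4 := hX.2 c q c' p
        rw [hp1, hq1] at h4
        rcases le_max_iff.1 h4 with h | h
        · rw [dist_comm q p] at h
          linarith
        · rw [dist_comm q c'] at h
          have hpq : 0 ≤ dist p q := dist_nonneg
          rcases le_max_iff.1 ep with h5 | h5 <;> rcases le_max_iff.1 eq with h6 | h6 <;> linarith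

theorem inter_nonempty (hX : IsMetricTree X) {c c' : X} {r r' : ℝ} (hr : 0 < r) (hr' : 0 < r') :
    (closedBall c r ∩ closedBall c' r').Nonempty ↔ dist c c' ≤ r + r' := by
  constructor
  · rintro ⟨p, hp, hp'⟩
    rw [mem_closedBall] at hp hp'
    have := dist_triangle_left c c' p
    linarith
  · intro h
    by_cases h1 : dist c c' ≤ r
    · refine ⟨c', ?_, mem_closedBall_self hr'.le⟩
      rw [mem_closedBall, dist_comm]
      exact h1
    · push Not at h1
      obtain ⟨z, hz1, hz2⟩ := hX.1 c c' r hr.le h1.le
      refine ⟨z, ?_, ?_⟩
      · rw [mem_closedBall, dist_comm]
        linarith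
      · rw [mem_closedBall]
        linarith

end V11121.Nest
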