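import Mathlib

/-! An ultrametric-like similarity on a finite set is read off along a suitable ordering. -/

namespace V11121.Nest

/-- Along `s 0, …, s (n-1)` the similarity of two members is the minimum over consecutive pairs. -/
def Good {V : Type} (g : V → V → ℝ) (S : Finset V) (s : ℕ → V) : Prop :=
  (∀ i < S.card, s i ∈ S) ∧ (∀ i < S.card, ∀ j < S.card, s i = s j → i = j) ∧
    ∀ i j, i < j → j < S.card → ∀ c : ℝ,
      (c ≤ g (s i) (s j) ↔ ∀ k, i ≤ k → k < j → c ≤ g (s k) (s (k + 1)))

theorem exists_good {V : Type} [DecidableEq V] [Nonempty V] (g : V → V → ℝ)
    (hs : ∀ x y, g x y = g y x) (hu : ∀ x y z, min (g x y) (g y z) ≤ g x z) :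
    ∀ (n : ℕ) (S : Finset V), S.card = n → ∃ s : ℕ → V, Good g S s := by
  intro n
  induction n using Nat.strong_induction_on with
  | _ n ih =>
    intro S hS
    by_cases hn : n ≤ 1
    · rcases S.eq_empty_or_nonempty with rfl | ⟨x, hx⟩
      · obtain ⟨x⟩ := (inferInstance : Nonempty V)
        refine ⟨fun _ => x, ?_, ?_, ?_⟩ <;> simp
      · refine ⟨fun _ => x, fun _ _ => hx, ?_, ?_⟩
        · intro i hi j hj _
          omega
        · intro i j hij hj
          omega
    · push Not at hn
      -- the minimal similarity
      have hne : S.offDiag.Nonempty := by
        obtain ⟨a, ha, b, hb, hab⟩ := Finset.one_lt_card.1 (show 1 < S.card by omega)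
        exact ⟨(a, b), Finset.mem_offDiag.2 ⟨ha, hb, hab⟩⟩
      obtain ⟨⟨u, v⟩, huv, hmin⟩ := Finset.exists_min_image S.offDiag (fun p => g p.1 p.2) hne
      rw [Finset.mem_offDiag] at huv
      obtain ⟨hu', hv', huv'⟩ := huv
      have hmin' : ∀ a ∈ S, ∀ b ∈ S, a ≠ b → g u v ≤ g a b := fun a ha b hb hab =>
        hmin (a, b) (Finset.mem_offDiag.2 ⟨ha, hb, hab⟩)
      classical
      set A := S.filter (fun y => y = u ∨ g u v < g u y) with hA
      set B := S.filter (fun y => ¬ (y = u ∨ g u v < g u y)) with hB
      have huA : u ∈ A := by simp [hA, hu']
      have hvB : v ∈ B := by
        simp only [hB, Finset.mem_filter]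
        exact ⟨hv', by simp [Ne.symm huv']⟩
      have hcard : A.card + B.card = S.card := Finset.card_filter_add_card_filter_not _
      have hA0 : 0 < A.card := Finset.card_pos.2 ⟨u, huA⟩
      have hB0 : 0 < B.card := Finset.card_pos.2 ⟨v, hvB⟩
      have hAS : ∀ a ∈ A, a ∈ S := fun a ha => (Finset.mem_filter.1 ha).1
      have hBS : ∀ b ∈ B, b ∈ S := fun b hb => (Finset.mem_filter.1 hb).1
      have hAB : ∀ a ∈ A, ∀ b ∈ B, a ≠ b := by
        intro a ha b hb h
        subst h
        exact (Finset.mem_filter.1 hb).2 (Finset.mem_filter.1 ha).2
      have hcross : ∀ a ∈ A, ∀ b ∈ B, g a b = g u v := by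
        intro a ha b hb
        refine le_antisymm ?_ (hmin' a (hAS a ha) b (hBS b hb) (hAB a ha b hb))
        have hb2 : g u b ≤ g u v := by
          have := (Finset.mem_filter.1 hb).2
          push Not at this
          exact this.2
        rcases (Finset.mem_filter.1 ha).2 with rfl | h
        · exact hb2
        · by_contra hc
          push Not at hc
          have := hu u a b
          have h3 : g u v < min (g u a) (g a b) := lt_min h hc
          linarith
      obtain ⟨sA, hA1, hA2, hA3⟩ := ih A.card (by omega) A rfl
      obtain ⟨sB, hB1, hB2, hB3⟩ := ih B.card (by omega) B rfl
      refine ⟨fun k => if k < A.card then sA k else sB (k - A.card), ?_, ?_, ?_⟩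
      · intro i hi
        by_cases h : i < A.card
        · simp only [h, if_true]
          exact hAS _ (hA1 i h)
        · simp only [h, if_false]
          exact hBS _ (hB1 _ (by omega))
      · intro i hi j hj hij
        by_cases h : i < A.card <;> by_cases h' : j < A.card
        · simp only [h, h', if_true] at hij
          exact hA2 i h j h' hij
        · simp only [h, h', if_true, if_false] at hij
          exact absurd hij (hAB _ (hA1 i h) _ (hB1 _ (by omega)))
        · simp only [h, h', if_true, if_false] at hij
          exact absurd hij.symm (hAB _ (hA1 j h') _ (hB1 _ (by omega)))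
        · simp only [h, h', if_false] at hij
          have := hB2 _ (by omega) _ (by omega) hij
          omega
      · intro i j hij hj c
        by_cases h' : j < A.card
        · have h : i < A.card := by omega
          simp only [h, h', if_true]
          rw [hA3 i j hij h' c]
          refine forall_congr' fun k => forall_congr' fun hk => forall_congr' fun hk' => ?_
          have h1 : k < A.card := by omega
          have h2 : k + 1 < A.card := by omega
          simp only [h1, h2, if_true]
        · by_cases h : i < A.card
          · simp only [h, h', if_true, if_false]
            rw [hcross _ (hA1 i h) _ (hB1 _ (by omega))]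
            constructor
            · intro hc k hk hk'
              refine hc.trans ?_
              by_cases h1 : k < A.card
              · by_cases h2 : k + 1 < A.card
                · simp only [h1, h2, if_true]
                  refine hmin' _ (hAS _ (hA1 k h1)) _ (hAS _ (hA1 _ h2)) ?_
                  intro he
                  have := hA2 k h1 _ h2 he
                  omega
                · simp only [h1, h2, if_true, if_false]
                  refine hmin' _ (hAS _ (hA1 k h1)) _ (hBS _ (hB1 _ (by omega))) ?_
                  exact hAB _ (hA1 k h1) _ (hB1 _ (by omega))
              · have h2 : ¬ k + 1 < A.card := by omega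
                simp only [h1, h2, if_false]
                refine hmin' _ (hBS _ (hB1 _ (by omega))) _ (hBS _ (hB1 _ (by omega))) ?_
                intro he
                have := hB2 _ (by omega) _ (by omega) he
                omega
            · intro hall
              have := hall (A.card - 1) (by omega) (by omega)
              have h1 : A.card - 1 < A.card := by omega
              have h2 : ¬ A.card - 1 + 1 < A.card := by omega
              simp only [h1, h2, if_true, if_false] at this
              rwa [hcross _ (hA1 _ h1) _ (hB1 _ (by omega))] at this
          · simp only [h, h', if_false]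
            rw [hB3 _ _ (show i - A.card < j - A.card by omega) (by omega) c]
            constructor
            · intro hall k hk hk'
              have h1 : ¬ k < A.card := by omega
              have h2 : ¬ k + 1 < A.card := by omega
              simp only [h1, h2, if_false]
              have := hall (k - A.card) (by omega) (by omega)
              have h3 : k - A.card + 1 = k + 1 - A.card := by omega
              rwa [h3] at this
            · intro hall k hk hk'
              have := hall (k + A.card) (by omega) (by omega)
              have h1 : ¬ k + A.card < A.card := by omega
              have h2 : ¬ k + A.card + 1 < A.card := by omega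
              simp only [h1, h2, if_false] at this
              have h3 : k + A.card - A.card = k := by omega
              have h4 : k + A.card + 1 - A.card = k + 1 := by omega
              rwa [h3, h4] at this

end V11121.Nest
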