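import Pool.Agent.V11121.Nest.Defs
import Pool.Agent.V11121.Nest.Gamma

/-! The split graph of a `Γ`-free matrix is strongly chordal. -/

namespace V11121.Nest

variable {N : ℕ}

/-- The split graph of a matrix: rows independent, columns a clique, row `i` adjacent to column
`j` iff `M i j`. -/
def splitRel (M : Fin N → Fin N → Bool) : Fin N ⊕ Fin N → Fin N ⊕ Fin N → Prop
  | Sum.inl _, Sum.inl _ => False
  | Sum.inl i, Sum.inr j => M i j = true
  | Sum.inr j, Sum.inl i => M i j = true
  | Sum.inr j, Sum.inr j' => j ≠ j'

/-- The split graph. -/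
def splitG (M : Fin N → Fin N → Bool) : SimpleGraph (Fin N ⊕ Fin N) where
  Adj := splitRel M
  symm := by
    constructor
    rintro (i | i) (j | j) h
    · exact h
    · exact h
    · exact h
    · exact Ne.symm h
  loopless := by
    constructor
    rintro (i | i) h
    · exact h
    · exact h rfl

theorem zmod_ne {k a : ℕ} (h1 : 0 < a) (h2 : a < k) : (a : ZMod k) ≠ 0 := by
  intro h
  rw [ZMod.natCast_eq_zero_iff] at h
  exact absurd (Nat.le_of_dvd h1 h) (by omega)

theorem split_chordal (M : Fin N → Fin N → Bool) : IsChordal (splitG M) := by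
  rintro k hk ⟨f, hf, hadj⟩
  have h1 : (1 : ZMod k) ≠ 0 := by simpa using zmod_ne (k := k) (a := 1) (by omega) (by omega)
  have h2 : (2 : ZMod k) ≠ 0 := by simpa using zmod_ne (k := k) (a := 2) (by omega) (by omega)
  have h3 : (3 : ZMod k) ≠ 0 := by simpa using zmod_ne (k := k) (a := 3) (by omega) (by omega)
  have hn2 : ∀ i : ZMod k, ¬ (splitG M).Adj (f i) (f (i + 2)) := by
    intro i h
    rcases (hadj _ _).1 h with h | h
    · exact h1 (by linear_combination h)
    · exact h3 (by linear_combination -h)
  have hcol : ∀ i : ZMod k, ∃ c, f i = Sum.inr c := by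
    intro i
    rcases hi : f i with a | c
    · exfalso
      have e1 : (splitG M).Adj (f i) (f (i + 1)) := (hadj _ _).2 (Or.inl rfl)
      have e2 : (splitG M).Adj (f (i - 1)) (f i) := (hadj _ _).2 (Or.inl (by ring))
      have e3 := hn2 (i - 1)
      have e4 : i - 1 + 2 = i + 1 := by ring
      rw [e4] at e3
      rcases h4 : f (i + 1) with b | b
      · rw [hi, h4] at e1; exact e1
      · rcases h5 : f (i - 1) with b' | b'
        · rw [hi, h5] at e2; exact e2
        · apply e3
          rw [h4, h5]
          intro hbb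
          have : f (i - 1) = f (i + 1) := by rw [h4, h5, hbb]
          have := hf this
          exact h2 (by linear_combination -this)
    · exact ⟨c, rfl⟩
  obtain ⟨c0, hc0⟩ := hcol 0
  obtain ⟨c2, hc2⟩ := hcol (0 + 2)
  apply hn2 0
  rw [hc0, hc2]
  intro h
  have : f 0 = f (0 + 2) := by rw [hc0, hc2, h]
  have := hf this
  exact h2 (by linear_combination -this)

theorem split_noSun (M : Fin N → Fin N → Bool) (hM : GF M) (k : ℕ) (hk : 3 ≤ k) :
    ¬ HasSun (splitG M) k := by
  rintro ⟨u, w, hu, hw, huw, hcl, hind, hadj⟩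
  have : NeZero k := ⟨by omega⟩
  have h1 : (1 : ZMod k) ≠ 0 := by simpa using zmod_ne (k := k) (a := 1) (by omega) (by omega)
  have h2 : (2 : ZMod k) ≠ 0 := by simpa using zmod_ne (k := k) (a := 2) (by omega) (by omega)
  -- every `w i` is a row
  have hwrow : ∀ i, ∃ a, w i = Sum.inl a := by
    intro i
    rcases hi : w i with a | c
    · exact ⟨a, rfl⟩
    · exfalso
      -- `u (i+2)` is not adjacent to `w i`, so it is a row
      have e1 : ¬ (splitG M).Adj (w i) (u (i + 2)) := by
        rw [hadj]
        rintro (h | h)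
        · exact h2 (by linear_combination h)
        · exact h1 (by linear_combination h)
      rcases h3 : u (i + 2) with b | b
      · -- `w (i+1)` and `w (i+2)` are adjacent to the row `u (i+2)`, so they are columns
        have e2 : (splitG M).Adj (w (i + 1)) (u (i + 2)) := (hadj _ _).2 (Or.inr (by ring))
        have e3 : (splitG M).Adj (w (i + 2)) (u (i + 2)) := (hadj _ _).2 (Or.inl rfl)
        rw [h3] at e2 e3
        rcases h4 : w (i + 1) with b1 | b1
        · rw [h4] at e2; exact e2
        · rcases h5 : w (i + 2) with b2 | b2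
          · rw [h5] at e3; exact e3
          · apply hind (i + 1) (i + 2)
            rw [h4, h5]
            intro hbb
            have : w (i + 1) = w (i + 2) := by rw [h4, h5, hbb]
            have := hw this
            exact h1 (by linear_combination -this)
      · apply e1
        rw [hi, h3]
        intro hbb
        exact huw (i + 2) i (by rw [hi, h3, hbb])
  choose a ha using hwrow
  -- every `u i` is a column
  have hucol : ∀ i, ∃ b, u i = Sum.inr b := by
    intro i
    rcases hi : u i with b | b
    · exfalso
      have e1 : (splitG M).Adj (w i) (u i) := (hadj _ _).2 (Or.inl rfl)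
      rw [hi, ha] at e1
      exact e1
    · exact ⟨b, rfl⟩
  choose b hb using hucol
  have hM' : ∀ i j, M (a i) (b j) = true ↔ j = i ∨ j = i + 1 := by
    intro i j
    rw [← hadj i j, ha, hb]
    exact Iff.rfl
  have hainj : ∀ i j, a i = a j → i = j := fun i j h => hw (by rw [ha, ha, h])
  have hbinj : ∀ i j, b i = b j → i = j := fun i j h => hu (by rw [hb, hb, h])
  -- the topmost row
  obtain ⟨i, -, hi⟩ := Finset.exists_min_image (Finset.univ : Finset (ZMod k)) a
    ⟨0, Finset.mem_univ _⟩
  have hlt : ∀ j, j ≠ i → a i < a j := fun j hj =>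
    lt_of_le_of_ne (hi j (Finset.mem_univ _)) (fun h => hj (hainj _ _ h).symm)
  have hbne : b i ≠ b (i + 1) := fun h => h1 (by linear_combination -(hbinj _ _ h))
  rcases lt_or_gt_of_ne hbne with hlt' | hgt'
  · have hj : i - 1 ≠ i := fun h => h1 (by linear_combination -h)
    have := hM (a i) (a (i - 1)) (b i) (b (i + 1)) (hlt _ hj) hlt'
      ((hM' _ _).2 (Or.inl rfl)) ((hM' _ _).2 (Or.inr rfl)) ((hM' _ _).2 (Or.inr (by ring)))
    rcases (hM' _ _).1 this with h | h
    · exact h2 (by linear_combination h)
    · exact h1 (by linear_combination h)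
  · have hj : i + 1 ≠ i := fun h => h1 (by linear_combination h)
    have := hM (a i) (a (i + 1)) (b (i + 1)) (b i) (hlt _ hj) hgt'
      ((hM' _ _).2 (Or.inr rfl)) ((hM' _ _).2 (Or.inl rfl)) ((hM' _ _).2 (Or.inl rfl))
    rcases (hM' _ _).1 this with h | h
    · exact h1 (by linear_combination -h)
    · exact h2 (by linear_combination -h)

theorem split_strong (M : Fin N → Fin N → Bool) (hM : GF M) : IsStronglyChordal (splitG M) :=
  ⟨split_chordal M, fun k hk => split_noSun M hM k hk⟩

theorem split_inj {M M' : Fin N → Fin N → Bool} (h : splitG M = splitG M') : M = M' := by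
  funext i j
  have h1 : (splitG M).Adj (Sum.inl i) (Sum.inr j) ↔ (splitG M').Adj (Sum.inl i) (Sum.inr j) := by
    rw [h]
  have h2 : M i j = true ↔ M' i j = true := h1
  exact Bool.eq_iff_iff.2 h2

end V11121.Nest
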