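import Mathlib

/-! Tree distances: decomposition into Gromov products. -/

namespace V11121.Nest

open SimpleGraph

variable {m : ℕ} {T : SimpleGraph (Fin m)}

/-- Reachability after deleting the edge `e`. -/
def Rel (T : SimpleGraph (Fin m)) (e : Sym2 (Fin m)) (x y : Fin m) : Prop :=
  (T.deleteEdges {e}).Reachable x y

theorem Rel.symm {e : Sym2 (Fin m)} {x y : Fin m} (h : Rel T e x y) : Rel T e y x :=
  Reachable.symm h

theorem Rel.trans {e : Sym2 (Fin m)} {x y z : Fin m} (h : Rel T e x y) (h' : Rel T e y z) :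
    Rel T e x z := Reachable.trans h h'

theorem rel_of_walk {e : Sym2 (Fin m)} {x y : Fin m} (p : T.Walk x y) (he : e ∉ p.edges) :
    Rel T e x y := by
  refine ⟨p.toDeleteEdges {e} ?_⟩
  intro e' he' h
  rw [Set.mem_singleton_iff] at h
  subst h
  exact he he'

theorem edge_iff (hT : T.IsTree) {e : Sym2 (Fin m)} {x y : Fin m} (p : T.Walk x y)
    (hp : p.IsPath) : e ∈ p.edges ↔ e ∈ T.edgeSet ∧ ¬ Rel T e x y := by
  constructor
  · intro he
    refine ⟨p.edges_subset_edgeSet he, ?_⟩
    intro hr
    obtain ⟨q, hq⟩ := hr.exists_isPath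
    have hle : T.deleteEdges {e} ≤ T := deleteEdges_le _
    have hq' : (q.mapLe hle).IsPath := by
      simpa using hq
    have := (hT.isAcyclic.subsingleton_path x y).elim ⟨p, hp⟩ ⟨q.mapLe hle, hq'⟩
    have hpq : p = q.mapLe hle := congrArg Subtype.val this
    rw [hpq] at he
    have h2 : e ∈ q.edges := by simpa using he
    have h3 := q.edges_subset_edgeSet h2
    rw [edgeSet_deleteEdges] at h3
    exact h3.2 rfl
  · rintro ⟨he, hr⟩
    by_contra hc
    exact hr (rel_of_walk p hc)

theorem rel_or (hT : T.IsTree) (a b v : Fin m) :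
    Rel T s(a, b) v a ∨ Rel T s(a, b) v b := by
  have hc : T.Reachable v a := hT.connected.preconnected v a
  obtain ⟨p⟩ := hc
  have key : ∀ (u v : Fin m) (p : T.Walk u v), (Rel T s(a, b) v a ∨ Rel T s(a, b) v b) →
      (Rel T s(a, b) u a ∨ Rel T s(a, b) u b) := by
    intro u v p
    induction p with
    | nil => exact id
    | @cons u v w huv p ih =>
      intro h
      have h1 := ih h
      by_cases hE : s(u, v) = s(a, b)
      · rw [Sym2.eq_iff] at hE
        rcases hE with ⟨rfl, rfl⟩ | ⟨rfl, rfl⟩
        · left; exact Reachable.refl _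
        · right; exact Reachable.refl _
      · have huv' : (T.deleteEdges {s(a, b)}).Adj u v := by
          rw [deleteEdges_adj]
          exact ⟨huv, by simpa using hE⟩
        rcases h1 with h1 | h1
        · left; exact (Adj.reachable huv').trans h1
        · right; exact (Adj.reachable huv').trans h1
  exact key v a p (Or.inl (Reachable.refl _))

theorem rel_two (hT : T.IsTree) (e : Sym2 (Fin m)) (x y z : Fin m)
    (hxy : ¬ Rel T e x y) (hyz : ¬ Rel T e y z) : Rel T e x z := by
  induction e using Sym2.ind with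
  | _ a b =>
    rcases rel_or hT a b x with hx | hx <;> rcases rel_or hT a b y with hy | hy <;>
      rcases rel_or hT a b z with hz | hz
    · exact hx.trans hz.symm
    · exact absurd (hx.trans hy.symm) hxy
    · exact hx.trans hz.symm
    · exact absurd (hy.trans hz.symm) hyz
    · exact absurd (hy.trans hz.symm) hyz
    · exact hx.trans hz.symm
    · exact absurd (hx.trans hy.symm) hxy
    · exact hx.trans hz.symm

/-- If `f` separates `ρ` from `z` and `e` does not, then the ends of `f` are on the same side of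
`e` as `ρ`. -/
theorem rel_end (hT : T.IsTree) {e : Sym2 (Fin m)} {u v ρ z : Fin m}
    (hf : s(u, v) ∈ T.edgeSet) (hfz : ¬ Rel T s(u, v) ρ z) (he : e ∈ T.edgeSet)
    (hez : Rel T e ρ z) : Rel T e ρ u := by
  obtain ⟨p, hp⟩ := (hT.connected.preconnected ρ z).exists_isPath
  have h1 : s(u, v) ∈ p.edges := (edge_iff hT p hp).2 ⟨hf, hfz⟩
  have h2 : e ∉ p.edges := fun h => ((edge_iff hT p hp).1 h).2 hez
  have h3 : u ∈ p.support := p.fst_mem_support_of_mem_edges h1
  refine rel_of_walk (p.takeUntil u h3) ?_
  intro h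
  exact h2 (p.edges_takeUntil_subset_edges h3 h)

theorem no_cross (hT : T.IsTree) {e f : Sym2 (Fin m)} (he : e ∈ T.edgeSet) (hf : f ∈ T.edgeSet)
    {ρ x y z : Fin m}
    (hex : ¬ Rel T e ρ x) (hey : ¬ Rel T e ρ y) (hez : Rel T e ρ z)
    (hfy : ¬ Rel T f ρ y) (hfz : ¬ Rel T f ρ z) (hfx : Rel T f ρ x) : False := by
  induction e using Sym2.ind with
  | _ a b =>
    -- an end of `e` on the side of `y`
    obtain ⟨b', hb', hyb⟩ : ∃ b', (b' = a ∨ b' = b) ∧ Rel T s(a, b) y b' := by
      rcases rel_or hT a b y with h | h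
      · exact ⟨a, Or.inl rfl, h⟩
      · exact ⟨b, Or.inr rfl, h⟩
    have hρb : Rel T f ρ b' := by
      rcases hb' with rfl | rfl
      · exact rel_end hT he hex hf hfx
      · have he' : s(b', a) ∈ T.edgeSet := by rw [Sym2.eq_swap]; exact he
        have hex' : ¬ Rel T s(b', a) ρ x := by rw [Sym2.eq_swap]; exact hex
        exact rel_end hT he' hex' hf hfx
    obtain ⟨q⟩ := hyb
    have hle : T.deleteEdges {s(a, b)} ≤ T := deleteEdges_le _
    by_cases hfq : f ∈ q.edges
    · -- then an end of `f` is on the side of `y`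
      induction f using Sym2.ind with
      | _ u v =>
        have h3 : u ∈ q.support := q.fst_mem_support_of_mem_edges hfq
        have h4 : Rel T s(a, b) y u := ⟨q.takeUntil u h3⟩
        have h5 : Rel T s(a, b) ρ u := rel_end hT hf hfz he hez
        exact hey (h5.trans h4.symm)
    · have h6 : Rel T f y b' := by
        refine rel_of_walk (q.mapLe hle) ?_
        simpa using hfq
      exact hfy (hρb.trans h6.symm)

open Classical in
theorem tree_split (T : SimpleGraph (Fin m)) (hT : T.IsTree) (w : Sym2 (Fin m) → ℝ)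
    (hw : ∀ e ∈ T.edgeSet, 0 < w e) (d : Fin m → Fin m → ℝ)
    (hd : ∀ x y (p : T.Walk x y), p.IsPath → d x y = (p.edges.map w).sum) :
    ∃ (h : Fin m → ℝ) (g : Fin m → Fin m → ℝ), (∀ x y, d x y = h x + h y - 2 * g x y) ∧
      (∀ x y, g x y = g y x) ∧ (∀ x y z, min (g x y) (g y z) ≤ g x z) := by
  obtain ⟨ρ⟩ : Nonempty (Fin m) := hT.connected.nonempty
  let E : Finset (Sym2 (Fin m)) := T.edgeFinset
  let I : Sym2 (Fin m) → Fin m → ℝ := fun e x => if Rel T e ρ x then 0 else 1
  refine ⟨fun x => ∑ e ∈ E, w e * I e x, fun x y => ∑ e ∈ E, w e * (I e x * I e y), ?_, ?_, ?_⟩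
  · intro x y
    obtain ⟨p, hp⟩ := (hT.connected.preconnected x y).exists_isPath
    rw [hd x y p hp]
    have h1 : (p.edges.map w).sum = ∑ e ∈ p.edges.toFinset, w e := by
      rw [List.sum_toFinset w hp.isTrail.edges_nodup]
    have h2 : p.edges.toFinset = E.filter (fun e => ¬ Rel T e x y) := by
      ext e
      rw [List.mem_toFinset, edge_iff hT p hp, Finset.mem_filter, mem_edgeFinset]
    rw [h1, h2, Finset.sum_filter, Finset.mul_sum, ← Finset.sum_add_distrib,
      ← Finset.sum_sub_distrib]
    refine Finset.sum_congr rfl fun e he => ?_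
    simp only [I]
    by_cases hx : Rel T e ρ x <;> by_cases hy : Rel T e ρ y
    · have : Rel T e x y := hx.symm.trans hy
      simp [hx, hy, this]
    · have : ¬ Rel T e x y := fun h => hy (hx.trans h)
      simp [hx, hy, this]
    · have : ¬ Rel T e x y := fun h => hx (hy.trans h.symm)
      simp [hx, hy, this]
    · have : Rel T e x y := rel_two hT e x ρ y (fun h => hx h.symm) hy
      simp [hx, hy, this]
      ring
  · intro x y
    refine Finset.sum_congr rfl fun e _ => ?_
    ring
  · intro x y z
    by_cases hc : ∃ e ∈ E, ¬ Rel T e ρ x ∧ ¬ Rel T e ρ y ∧ Rel T e ρ z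
    · obtain ⟨e, heE, hex, hey, hez⟩ := hc
      have he : e ∈ T.edgeSet := mem_edgeFinset.1 heE
      refine le_trans (min_le_right _ _) ?_
      refine Finset.sum_le_sum fun f hfE => ?_
      have hf : f ∈ T.edgeSet := mem_edgeFinset.1 hfE
      have hwf : 0 ≤ w f := (hw f hf).le
      refine mul_le_mul_of_nonneg_left ?_ hwf
      simp only [I]
      by_cases hfx : Rel T f ρ x
      · by_cases hfy : Rel T f ρ y
        · simp [hfx, hfy]
        · by_cases hfz : Rel T f ρ z
          · simp [hfx, hfy, hfz]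
          · exact (no_cross hT he hf hex hey hez hfy hfz hfx).elim
      · by_cases hfy : Rel T f ρ y <;> by_cases hfz : Rel T f ρ z <;> simp [hfx, hfy, hfz]
    · push Not at hc
      refine le_trans (min_le_left _ _) ?_
      refine Finset.sum_le_sum fun f hfE => ?_
      have hf : f ∈ T.edgeSet := mem_edgeFinset.1 hfE
      have hwf : 0 ≤ w f := (hw f hf).le
      refine mul_le_mul_of_nonneg_left ?_ hwf
      simp only [I]
      by_cases hfx : Rel T f ρ x
      · simp [hfx]
      · by_cases hfy : Rel T f ρ y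
        · simp [hfx, hfy]
          split_ifs <;> norm_num
        · have hfz := hc f hfE hfx hfy
          simp [hfx, hfy, hfz]

end V11121.Nest
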