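import Pool.Agent.V11121.Nest.Tree
import Pool.Agent.V11121.Nest.Order
import Pool.Agent.V11121.Nest.Count

/-! Few graphs are described by a similarity with tolerances. -/

namespace V11121.Nest

open Nat

/-- Abstract description extracted from a NeST representation. -/
def Abs {V : Type} (G : SimpleGraph V) : Prop :=
  ∃ (h r t : V → ℝ) (g : V → V → ℝ), (∀ x y, g x y = g y x) ∧
    (∀ x y z, min (g x y) (g y z) ≤ g x z) ∧
    ∀ x y, x ≠ y → (G.Adj x y ↔
      min (t x) (t y) ≤ min (min (2 * r x) (2 * r y)) (r x + r y - (h x + h y - 2 * g x y)))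

/-- Index set of the functionals. -/
abbrev Idx (n : ℕ) : Type := (Fin n × Fin n × Fin n × Fin n) ⊕ (Fin n × Fin n)

/-- A coordinate. -/
def pr {n : ℕ} (p : Fin 4 × Fin n) : (Fin 4 × Fin n → ℝ) →ₗ[ℝ] ℝ := LinearMap.proj p

theorem pr_apply {n : ℕ} (p : Fin 4 × Fin n) (θ : Fin 4 × Fin n → ℝ) : pr p θ = θ p := rfl

/-- The functionals. -/
def func (n : ℕ) : Idx n → ((Fin 4 × Fin n → ℝ) →ₗ[ℝ] ℝ)
  | Sum.inl (i, j, k, s) =>
      pr (1, i) + pr (1, j) - pr (0, i) - pr (0, j) + (2 : ℝ) • pr (3, k) - pr (2, s)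
  | Sum.inr (i, s) => (2 : ℝ) • pr (1, i) - pr (2, s)

theorem func_inl (n : ℕ) (i j k s : Fin n) (θ : Fin 4 × Fin n → ℝ) :
    func n (Sum.inl (i, j, k, s)) θ =
      θ (1, i) + θ (1, j) - θ (0, i) - θ (0, j) + 2 * θ (3, k) - θ (2, s) := by
  simp [func, pr_apply]

theorem func_inr (n : ℕ) (i s : Fin n) (θ : Fin 4 × Fin n → ℝ) :
    func n (Sum.inr (i, s)) θ = 2 * θ (1, i) - θ (2, s) := by
  simp [func, pr_apply]

/-- Adjacency read off from a pattern. -/
def R {n : ℕ} (u : Finset (Idx n)) (i j : Fin n) : Prop :=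
  i < j ∧ ∃ s, (s = i ∨ s = j) ∧ Sum.inr (i, s) ∈ u ∧ Sum.inr (j, s) ∈ u ∧
    ∀ k : Fin n, i ≤ k → k < j → Sum.inl (i, j, k, s) ∈ u

/-- The graph of an ordering and a pattern. -/
def decode {V : Type} {n : ℕ} (e : Fin n ≃ V) (u : Finset (Idx n)) : SimpleGraph V :=
  SimpleGraph.fromRel (fun x y => R u (e.symm x) (e.symm y))

theorem abs_decode {V : Type} [Fintype V] [DecidableEq V] [Nonempty V] (G : SimpleGraph V)
    (hG : Abs G) (P : Finset (Finset (Idx (Fintype.card V))))
    (hP : ∀ θ : Fin 4 × Fin (Fintype.card V) → ℝ,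
      ∃ u ∈ P, ∀ i, i ∈ u ↔ 0 ≤ func (Fintype.card V) i θ) :
    ∃ (e : Fin (Fintype.card V) ≃ V) (u : Finset (Idx (Fintype.card V))),
      u ∈ P ∧ G = decode e u := by
  obtain ⟨h, r, t, g, hs, hu, hadj⟩ := hG
  obtain ⟨s, -, hs2, hs3⟩ := exists_good g hs hu (Fintype.card V) Finset.univ rfl
  rw [Finset.card_univ] at hs2 hs3
  let e0 : Fin (Fintype.card V) → V := fun i => s i
  have he0 : Function.Bijective e0 := by
    rw [Fintype.bijective_iff_injective_and_card]
    refine ⟨fun i j hij => Fin.ext (hs2 i i.2 j j.2 hij), by simp⟩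
  let e : Fin (Fintype.card V) ≃ V := Equiv.ofBijective e0 he0
  have hes : ∀ i : Fin (Fintype.card V), e i = s i := fun i => rfl
  let θ : Fin 4 × Fin (Fintype.card V) → ℝ := fun p =>
    match p.1 with
    | 0 => h (s p.2)
    | 1 => r (s p.2)
    | 2 => t (s p.2)
    | 3 => g (s p.2) (s (p.2 + 1))
  have hθ0 : ∀ i, θ (0, i) = h (s i) := fun i => rfl
  have hθ1 : ∀ i, θ (1, i) = r (s i) := fun i => rfl
  have hθ2 : ∀ i, θ (2, i) = t (s i) := fun i => rfl
  have hθ3 : ∀ i, θ (3, i) = g (s i) (s (i + 1)) := fun i => rfl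
  obtain ⟨u, huP, hu2⟩ := hP θ
  refine ⟨e, u, huP, ?_⟩
  have key : ∀ i j : Fin (Fintype.card V), i < j → (G.Adj (s i) (s j) ↔ R u i j) := by
    intro i j hij
    have hne : s i ≠ s j := by
      intro h
      have := hs2 i i.2 j j.2 h
      rw [Fin.lt_def] at hij
      omega
    rw [hadj _ _ hne]
    have hk : ∀ w : Fin (Fintype.card V), (0 ≤ func _ (Sum.inr (i, w)) θ ∧
        0 ≤ func _ (Sum.inr (j, w)) θ ∧ ∀ k : Fin (Fintype.card V), i ≤ k → k < j →
          0 ≤ func _ (Sum.inl (i, j, k, w)) θ) ↔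
        t (s w) ≤ min (min (2 * r (s i)) (2 * r (s j)))
          (r (s i) + r (s j) - (h (s i) + h (s j) - 2 * g (s i) (s j))) := by
      intro w
      rw [le_min_iff, le_min_iff, and_assoc]
      simp only [func_inr, func_inl, hθ0, hθ1, hθ2, hθ3]
      refine and_congr (by rw [sub_nonneg]) (and_congr (by rw [sub_nonneg]) ?_)
      have h3 := hs3 i j (by rw [Fin.lt_def] at hij; exact hij) j.2
        ((t (s w) - r (s i) - r (s j) + h (s i) + h (s j)) / 2)
      constructor
      · intro hall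
        have : (t (s w) - r (s i) - r (s j) + h (s i) + h (s j)) / 2 ≤ g (s i) (s j) := by
          rw [h3]
          intro k hk hk'
          have := hall ⟨k, by have := j.2; omega⟩ (by rw [Fin.le_def]; exact hk)
            (by rw [Fin.lt_def]; exact hk')
          simp only at this
          linarith
        linarith
      · intro hle k hk hk'
        have h4 : (t (s w) - r (s i) - r (s j) + h (s i) + h (s j)) / 2 ≤ g (s i) (s j) := by
          linarith
        have := (h3.1 h4) k (by rw [Fin.le_def] at hk; exact hk) (by rw [Fin.lt_def] at hk'; exact hk')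
        linarith
    have hR : R u i j ↔ ∃ w, (w = i ∨ w = j) ∧ (0 ≤ func _ (Sum.inr (i, w)) θ ∧
        0 ≤ func _ (Sum.inr (j, w)) θ ∧ ∀ k : Fin (Fintype.card V), i ≤ k → k < j →
          0 ≤ func _ (Sum.inl (i, j, k, w)) θ) := by
      unfold R
      constructor
      · rintro ⟨_, w, hw, h1, h2, h3⟩
        exact ⟨w, hw, (hu2 _).1 h1, (hu2 _).1 h2, fun k hk hk' => (hu2 _).1 (h3 k hk hk')⟩
      · rintro ⟨w, hw, h1, h2, h3⟩
        exact ⟨hij, w, hw, (hu2 _).2 h1, (hu2 _).2 h2, fun k hk hk' => (hu2 _).2 (h3 k hk hk')⟩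
    rw [hR, min_le_iff]
    constructor
    · rintro (h1 | h1)
      · exact ⟨i, Or.inl rfl, (hk i).2 h1⟩
      · exact ⟨j, Or.inr rfl, (hk j).2 h1⟩
    · rintro ⟨w, rfl | rfl, h1⟩
      · exact Or.inl ((hk _).1 h1)
      · exact Or.inr ((hk _).1 h1)
  ext x y
  simp only [decode, SimpleGraph.fromRel_adj]
  have hx : s (e.symm x) = x := by rw [← hes, Equiv.apply_symm_apply]
  have hy : s (e.symm y) = y := by rw [← hes, Equiv.apply_symm_apply]
  rcases lt_trichotomy (e.symm x) (e.symm y) with hlt | heq | hgt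
  · have h1 := key _ _ hlt
    rw [hx, hy] at h1
    have hnR : ¬ R u (e.symm y) (e.symm x) := fun h => absurd (h.1.trans hlt) (lt_irrefl _)
    have hxy : x ≠ y := by rintro rfl; exact lt_irrefl _ hlt
    rw [h1]
    simp [hnR, hxy]
  · have hxy : x = y := e.symm.injective heq
    subst hxy
    simp
  · have h1 := key _ _ hgt
    rw [hx, hy] at h1
    have hnR : ¬ R u (e.symm x) (e.symm y) := fun h => absurd (h.1.trans hgt) (lt_irrefl _)
    have hxy : x ≠ y := by rintro rfl; exact lt_irrefl _ hgt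
    rw [G.adj_comm, h1]
    simp [hnR, hxy]

theorem card_abs (V : Type) [Fintype V] [Nonempty V] :
    Nat.card {G : SimpleGraph V // Abs G} ≤
      (Fintype.card V)! * ((Fintype.card V) ^ 4 + (Fintype.card V) ^ 2 + 1)
        ^ (4 * Fintype.card V) := by
  classical
  obtain ⟨P, hPc, hP⟩ := card_patterns (func (Fintype.card V))
  have h1 : ∀ G : {G : SimpleGraph V // Abs G}, ∃ p : (Fin (Fintype.card V) ≃ V) × P,
      G.1 = decode p.1 p.2.1 := by
    intro G
    obtain ⟨e, u, hu, h⟩ := abs_decode G.1 G.2 P hP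
    exact ⟨⟨e, ⟨u, hu⟩⟩, h⟩
  choose f hf using h1
  have hinj : Function.Injective f := by
    intro G G' h
    apply Subtype.ext
    rw [hf G, hf G', h]
  have h2 := Nat.card_le_card_of_injective f hinj
  refine h2.trans ?_
  rw [Nat.card_prod, Nat.card_eq_fintype_card, Nat.card_eq_fintype_card, Fintype.card_coe]
  have h3 : Fintype.card (Fin (Fintype.card V) ≃ V) = (Fintype.card V)! := by
    rw [Fintype.card_equiv (Fintype.equivFin V).symm, Fintype.card_fin]
  rw [h3]
  refine Nat.mul_le_mul_left _ (hPc.trans (le_of_eq ?_))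
  congr 1
  · simp only [Fintype.card_sum, Fintype.card_prod, Fintype.card_fin]
    ring
  · simp only [Fintype.card_prod, Fintype.card_fin]

end V11121.Nest
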